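import Pool.Agent.helper27.WD.PB

/-!
# wd:KB  bounds of the Poisson kernel of the strip, total mass, Jensen's inequality
-/

set_option autoImplicit false

namespace Pool.Agent.helper33.WD

open Complex MeasureTheory Set

theorem KB_den_ge {x : ℝ} (hx : 0 < x) (hx1 : x < 1) (t : ℝ) :
    x ^ 2 / 2 * Real.exp (Real.pi * |t|) * 2 ≤ 2 * (Real.cosh (Real.pi * t) - Real.cos (Real.pi * x)) := by
  have hpi := Real.pi_pos
  have hc1 : 1 ≤ Real.cosh (Real.pi * t) := Real.one_le_cosh _
  have hs : x ≤ Real.sin (Real.pi * x / 2) := by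
    have h := Real.mul_le_sin (x := Real.pi * x / 2) (by positivity) (by nlinarith)
    have h2 : 2 / Real.pi * (Real.pi * x / 2) = x := by field_simp
    linarith
  have hcos : 1 - Real.cos (Real.pi * x) = 2 * Real.sin (Real.pi * x / 2) ^ 2 := by
    have h := Real.cos_sq' (Real.pi * x / 2)
    have h2 := Real.cos_sq (Real.pi * x / 2)
    rw [show 2 * (Real.pi * x / 2) = Real.pi * x by ring] at h2
    linarith
  have hsx : x ^ 2 ≤ Real.sin (Real.pi * x / 2) ^ 2 := by
    exact pow_le_pow_left₀ hx.le hs 2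
  have hch : Real.exp (Real.pi * |t|) ≤ 2 * Real.cosh (Real.pi * t) := by
    rw [← Real.cosh_abs, abs_mul, abs_of_pos hpi, Real.cosh_eq]
    have := Real.exp_pos (-(Real.pi * |t|))
    linarith
  have hch0 : 0 < Real.cosh (Real.pi * t) := Real.cosh_pos _
  have hcos1 := Real.neg_one_le_cos (Real.pi * x)
  have key : (1 - Real.cos (Real.pi * x)) / 2 * Real.cosh (Real.pi * t) ≤
      Real.cosh (Real.pi * t) - Real.cos (Real.pi * x) := by
    nlinarith [mul_nonneg (sub_nonneg.2 hc1) (by linarith : (0:ℝ) ≤ 1 + Real.cos (Real.pi * x))]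
  have h3 : x ^ 2 / 2 * Real.exp (Real.pi * |t|) ≤
      (1 - Real.cos (Real.pi * x)) / 2 * Real.cosh (Real.pi * t) := by
    rw [hcos]
    have := mul_le_mul hsx hch (Real.exp_pos _).le (sq_nonneg _)
    nlinarith
  linarith

theorem KB_den_pos {x : ℝ} (hx : 0 < x) (hx1 : x < 1) (t : ℝ) :
    0 < 2 * (Real.cosh (Real.pi * t) - Real.cos (Real.pi * x)) :=
  lt_of_lt_of_le (by positivity) (KB_den_ge hx hx1 t)

/-- wd:KB  bounds of the kernel. -/
theorem stripKernel_nonneg {x : ℝ} (hx : 0 < x) (hx1 : x < 1) (t : ℝ) : 0 ≤ stripKernel x t := by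
  have hpi := Real.pi_pos
  refine div_nonneg (Real.sin_nonneg_of_nonneg_of_le_pi (by positivity) ?_) (KB_den_pos hx hx1 t).le
  nlinarith

theorem stripKernel_le {x : ℝ} (hx : 0 < x) (hx1 : x < 1) (t : ℝ) :
    stripKernel x t ≤ Real.pi / x * Real.exp (-(Real.pi * |t|)) := by
  have hpi := Real.pi_pos
  unfold stripKernel
  rw [div_le_iff₀ (KB_den_pos hx hx1 t)]
  have h1 : Real.sin (Real.pi * x) ≤ Real.pi * x := Real.sin_le (by positivity)
  have h2 := mul_le_mul_of_nonneg_left (KB_den_ge hx hx1 t)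
    (by positivity : 0 ≤ Real.pi / x * Real.exp (-(Real.pi * |t|)))
  have h3 : Real.pi / x * Real.exp (-(Real.pi * |t|)) * (x ^ 2 / 2 * Real.exp (Real.pi * |t|) * 2) =
      Real.pi * x := by
    rw [Real.exp_neg]
    field_simp
  linarith

theorem stripKernel_continuous {x : ℝ} (hx : 0 < x) (hx1 : x < 1) : Continuous (stripKernel x) := by
  unfold stripKernel
  refine continuous_const.div (by fun_prop) fun t => (KB_den_pos hx hx1 t).ne'

theorem KB_exp_integrable : Integrable fun t : ℝ => Real.exp (-(1 * |t|)) := by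
  refine Integrable.mono' (integrable_inv_one_add_sq.const_mul 2) (by fun_prop)
    (Filter.Eventually.of_forall fun t => ?_)
  rw [Real.norm_eq_abs, abs_of_pos (Real.exp_pos _), one_mul, Real.exp_neg]
  have h1 : (1 + t ^ 2) / 2 ≤ Real.exp |t| := by
    have h := Real.quadratic_le_exp_of_nonneg (abs_nonneg t)
    have h2 := sq_abs t
    nlinarith [abs_nonneg t]
  have h3 : 0 < 1 + t ^ 2 := by positivity
  have h4 := inv_anti₀ (by positivity) h1
  rw [inv_div] at h4
  simpa [div_eq_mul_inv] using h4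

/-- wd:KB  integrability against the kernel. -/
theorem stripKernel_integrable {x K : ℝ} (hx : 0 < x) (hx1 : x < 1) {g : ℝ → ℝ} (hg : Continuous g)
    (hb : ∀ t, |g t| ≤ K * Real.exp (2 * |t|)) : Integrable fun t : ℝ => stripKernel x t * g t := by
  have hK : 0 ≤ K := by
    have := (abs_nonneg _).trans (hb 0)
    simpa using this
  have hpi3 := Real.pi_gt_three
  have hpi := Real.pi_pos
  refine Integrable.mono' (KB_exp_integrable.const_mul (Real.pi / x * K))
    ((stripKernel_continuous hx hx1).mul hg).aestronglyMeasurable (Filter.Eventually.of_forall fun t => ?_)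
  rw [Real.norm_eq_abs, abs_mul, abs_of_nonneg (stripKernel_nonneg hx hx1 t)]
  have h1 := mul_le_mul (stripKernel_le hx hx1 t) (hb t) (abs_nonneg _) (by positivity)
  refine h1.trans ?_
  have h2 : Real.pi / x * Real.exp (-(Real.pi * |t|)) * (K * Real.exp (2 * |t|)) =
      Real.pi / x * K * Real.exp (-((Real.pi - 2) * |t|)) := by
    rw [show -((Real.pi - 2) * |t|) = -(Real.pi * |t|) + 2 * |t| by ring, Real.exp_add]
    ring
  rw [h2]
  refine mul_le_mul_of_nonneg_left (Real.exp_le_exp.2 ?_) (by positivity)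
  nlinarith [abs_nonneg t]

theorem KB_mass_left {x : ℝ} (hx : 0 < x) (hx1 : x < 1) :
    ∫ t : ℝ, stripKernel x t = 1 - x := by
  have hpi := Real.pi_pos
  have h := circle_left hx hx1 fun _ => 1
  simp only [mul_one, integral_const, smul_eq_mul] at h
  rw [measureReal_restrict_apply MeasurableSet.univ, Set.univ_inter, Real.volume_real_Ioo_of_le
    (by nlinarith)] at h
  have h2 : 2 * Real.pi * (1 - x) = 2 * Real.pi * ∫ t : ℝ, stripKernel x t := by linarith
  exact (mul_left_cancel₀ (by positivity) h2).symm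

/-- wd:KB  total mass (from `circle_left`, `circle_right` with `g = 1`). -/
theorem stripKernel_mass {x : ℝ} (hx : 0 < x) (hx1 : x < 1) :
    (∫ t : ℝ, stripKernel x t) + ∫ t : ℝ, stripKernel (1 - x) t = 1 := by
  rw [KB_mass_left hx hx1, KB_mass_left (by linarith : 0 < 1 - x) (by linarith)]
  ring

theorem KB_exp_bound {K : ℝ} {φ : ℝ → ℝ} (hφb : ∀ t, Real.exp |φ t| ≤ K * Real.exp (2 * |t|)) :
    (∀ t, |φ t| ≤ K * Real.exp (2 * |t|)) ∧ ∀ t, |Real.exp (φ t)| ≤ K * Real.exp (2 * |t|) := by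
  refine ⟨fun t => ?_, fun t => ?_⟩
  · have := Real.add_one_le_exp |φ t|
    linarith [hφb t]
  · rw [abs_of_pos (Real.exp_pos _)]
    exact (Real.exp_le_exp.2 (le_abs_self _)).trans (hφb t)

theorem KB_half {x K m : ℝ} (hx : 0 < x) (hx1 : x < 1) {φ : ℝ → ℝ} (hφ : Continuous φ)
    (hφb : ∀ t, Real.exp |φ t| ≤ K * Real.exp (2 * |t|)) :
    Real.exp m * ((1 - m) * (∫ t : ℝ, stripKernel x t) + ∫ t : ℝ, stripKernel x t * φ t) ≤
      ∫ t : ℝ, stripKernel x t * Real.exp (φ t) := by
  obtain ⟨h1, h2⟩ := KB_exp_bound hφb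
  have i1 := stripKernel_integrable hx hx1 hφ h1
  have i2 := stripKernel_integrable hx hx1 (Real.continuous_exp.comp hφ) h2
  have i0 : Integrable fun t : ℝ => stripKernel x t := by
    have h := stripKernel_integrable (K := 1) hx hx1 (g := fun _ => 1) continuous_const fun t => by
      rw [abs_one, one_mul]
      exact Real.one_le_exp (by positivity)
    simpa using h
  have e : Real.exp m * ((1 - m) * (∫ t : ℝ, stripKernel x t) + ∫ t : ℝ, stripKernel x t * φ t) =
      ∫ t : ℝ, Real.exp m * ((1 - m) * stripKernel x t + stripKernel x t * φ t) := by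
    rw [integral_const_mul, integral_add (i0.const_mul _) i1, integral_const_mul]
  rw [e]
  refine integral_mono (((i0.const_mul _).add i1).const_mul _) i2 fun t => ?_
  have h3 := Real.add_one_le_exp (φ t - m)
  have h4 : Real.exp m * (φ t - m + 1) ≤ Real.exp (φ t) := by
    have := mul_le_mul_of_nonneg_left h3 (Real.exp_pos m).le
    rwa [← Real.exp_add, add_sub_cancel] at this
  have h5 := mul_le_mul_of_nonneg_left h4 (stripKernel_nonneg hx hx1 t)
  beta_reduce
  linarith

/-- wd:KB  Jensen's inequality for the harmonic measure of the strip. -/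
theorem strip_jensen {x K : ℝ} (hx : 0 < x) (hx1 : x < 1) {φ ψ : ℝ → ℝ} (hφ : Continuous φ)
    (hψ : Continuous ψ) (hφb : ∀ t, Real.exp |φ t| ≤ K * Real.exp (2 * |t|))
    (hψb : ∀ t, Real.exp |ψ t| ≤ K * Real.exp (2 * |t|)) :
    Real.exp ((∫ t : ℝ, stripKernel x t * φ t) + ∫ t : ℝ, stripKernel (1 - x) t * ψ t) ≤
      (∫ t : ℝ, stripKernel x t * Real.exp (φ t)) +
        ∫ t : ℝ, stripKernel (1 - x) t * Real.exp (ψ t) := by
  set m := (∫ t : ℝ, stripKernel x t * φ t) + ∫ t : ℝ, stripKernel (1 - x) t * ψ t with hm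
  have h1 := KB_half (m := m) hx hx1 hφ hφb
  have h2 := KB_half (m := m) (by linarith : 0 < 1 - x) (by linarith) hψ hψb
  have h3 := stripKernel_mass hx hx1
  have h4 : Real.exp m * ((1 - m) * (∫ t : ℝ, stripKernel x t) + ∫ t : ℝ, stripKernel x t * φ t) +
      Real.exp m * ((1 - m) * (∫ t : ℝ, stripKernel (1 - x) t) +
        ∫ t : ℝ, stripKernel (1 - x) t * ψ t) = Real.exp m := by
    have : Real.exp m * ((1 - m) * (∫ t : ℝ, stripKernel x t) + ∫ t : ℝ, stripKernel x t * φ t) +
      Real.exp m * ((1 - m) * (∫ t : ℝ, stripKernel (1 - x) t) +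
        ∫ t : ℝ, stripKernel (1 - x) t * ψ t) = Real.exp m * ((1 - m) *
        ((∫ t : ℝ, stripKernel x t) + ∫ t : ℝ, stripKernel (1 - x) t) + m) := by
      rw [hm]; ring
    rw [this, h3]; ring
  linarith

end Pool.Agent.helper33.WD
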