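import Pool.Agent.helper33.WD.Defs

/-!
# wd:PA  sub-mean value property of the positive part of the logarithm of an analytic function
-/

set_option autoImplicit false

namespace Pool.Agent.helper33.WD

open Complex MeasureTheory Set

/-- wd:PA  sub-mean value property of `log⁺ |f|` at the centre of a disc. -/
theorem posLog_le_circleAverage {f : ℂ → ℂ} {r : ℝ} (hr : 0 < r)
    (hf : AnalyticOnNhd ℂ f (Metric.closedBall 0 r)) :
    Real.posLog ‖f 0‖ ≤ Real.circleAverage (fun z => Real.posLog ‖f z‖) 0 r := by
  have habs : |r| = r := abs_of_pos hr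
  have hf' : AnalyticOnNhd ℂ f (Metric.closedBall 0 |r|) := by rwa [habs]
  have hmer : MeromorphicOn f (Metric.sphere 0 |r|) :=
    (hf'.mono Metric.sphere_subset_closedBall).meromorphicOn
  have h0 : 0 ≤ Real.circleAverage (fun z => Real.posLog ‖f z‖) 0 r :=
    Real.circleAverage_nonneg_of_nonneg fun x _ => Real.posLog_nonneg
  by_cases h : f 0 = 0
  · simpa [h] using h0
  · have hj := hf'.circleAverage_log_norm hr.ne' h
    have hsum : 0 ≤ ∑ᶠ u, (MeromorphicOn.divisor f (Metric.closedBall 0 |r|) u : ℝ) *
        Real.log (r * ‖(0 : ℂ) - u‖⁻¹) := by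
      refine finsum_nonneg fun u => ?_
      by_cases hu : u ∈ Metric.closedBall (0 : ℂ) |r|
      · refine mul_nonneg (by exact_mod_cast MeromorphicOn.AnalyticOnNhd.divisor_nonneg hf' u) ?_
        rcases eq_or_ne u 0 with rfl | hu0
        · simp
        · refine Real.log_nonneg ?_
          have h1 : 0 < ‖(0 : ℂ) - u‖ := by simpa using hu0
          rw [← div_eq_mul_inv, one_le_div h1]
          simpa [habs] using hu
      · have : MeromorphicOn.divisor f (Metric.closedBall 0 |r|) u = 0 :=
          (MeromorphicOn.divisor f (Metric.closedBall 0 |r|)).apply_eq_zero_of_notMem hu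
        simp [this]
    have hle : Real.circleAverage (fun z => Real.log ‖f z‖) 0 r ≤
        Real.circleAverage (fun z => Real.posLog ‖f z‖) 0 r := by
      refine Real.circleAverage_mono hmer.circleIntegrable_log_norm hmer.circleIntegrable_posLog_norm
        fun x _ => ?_
      exact le_max_right _ _
    have h2 : Real.log ‖f 0‖ ≤ Real.circleAverage (fun z => Real.posLog ‖f z‖) 0 r := by
      linarith
    exact max_le h0 h2

end Pool.Agent.helper33.WD
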